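import Mathlib

/-!
# Project LC: Landau's constant is at least 1/2 + 1/4000

Basic definitions.
-/

namespace Pool.Agent.Helper91.LC

open Complex Metric Set

/-- Normalised Bloch functions: `F 0 = 0`, `F' 0 = 1` and `|F'(z)| (1 - |z|^2) ≤ 1`. -/
structure Good (F : ℂ → ℂ) : Prop where
  diff : DifferentiableOn ℂ F (ball 0 1)
  zero : F 0 = 0
  one : deriv F 0 = 1
  bd : ∀ z ∈ ball (0 : ℂ) 1, ‖deriv F z‖ * (1 - ‖z‖ ^ 2) ≤ 1

/-- `f` is the local inverse of `F` on the disc of radius `√3 / 4`. -/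
structure Inv (F f : ℂ → ℂ) : Prop where
  diff : DifferentiableOn ℂ f (ball 0 (√3 / 4))
  zero : f 0 = 0
  lt : ∀ v ∈ ball (0 : ℂ) (√3 / 4), ‖f v‖ < 1 / √3
  eq : ∀ v ∈ ball (0 : ℂ) (√3 / 4), F (f v) = v

/-- `A F` omits the closed set `E`, and `E` is `1`-dense. -/
structure Cov (F : ℂ → ℂ) (A : ℝ) (E : Set ℂ) : Prop where
  clo : IsClosed E
  ne : E.Nonempty
  cov : ∀ w, infDist w E ≤ 1
  dis : ∀ z ∈ ball (0 : ℂ) 1, (A : ℂ) * F z ∉ E

/-- the Bloch potential `-log (|F'(z)| (1 - |z|^2))`. -/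
noncomputable def P (F : ℂ → ℂ) (z : ℂ) : ℝ := - Real.log (‖deriv F z‖ * (1 - ‖z‖ ^ 2))

/-- Ahlfors' lower bound as a function of the squared distance `s`:
`y - log (1 + y)` with `y = - (log s) / 2` for `s < 1`, and `0` for `s ≥ 1`. -/
noncomputable def psiS (s : ℝ) : ℝ :=
  if s < 1 then - Real.log s / 2 - Real.log (1 - Real.log s / 2) else 0

/-- affine (in `s`) minorants of `psiS`. -/
noncomputable def aff (x s : ℝ) : ℝ :=
  x - Real.log (1 + x) + x / (2 * (1 + x)) * (1 - Real.exp (2 * x) * s)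

end Pool.Agent.Helper91.LC
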