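import Pool.Agent.Helper91.LC.Rot

/-!
# Project LC: case A
-/

namespace Pool.Agent.Helper91.LC

open Complex Metric Set MeasureTheory

lemma A_ge {A : ℝ} (hA : 0 < A) (hc : Real.log (2 / A) ≤ 0.0005) : 1.999 ≤ A := by
  have h1 : 2 / A ≤ Real.exp 0.0005 := by
    rw [← Real.exp_log (show (0 : ℝ) < 2 / A by positivity)]
    exact Real.exp_le_exp.mpr hc
  have h2 : Real.exp 0.0005 ≤ 1 / (1 - 0.0005) := by
    have h3 := Real.add_one_le_exp (-0.0005 : ℝ)
    have h4 : Real.exp 0.0005 * Real.exp (-0.0005) = 1 := by rw [← Real.exp_add]; norm_num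
    have h5 : 0 < Real.exp 0.0005 := Real.exp_pos _
    rw [le_div_iff₀ (by norm_num)]
    nlinarith
  have h3 : 2 / A ≤ 1 / (1 - 0.0005) := h1.trans h2
  rw [div_le_div_iff₀ hA (by norm_num)] at h3
  linarith

/-- the potential along the circle of centre `a` and radius `0.3`. -/
noncomputable def VV (F f : ℂ → ℂ) (A : ℝ) (a : ℂ) (θ : ℝ) : ℝ :=
  Real.log (2 / A) + P F (f (circleMap a 0.3 θ))

lemma circle_mem {a : ℂ} (ha : ‖a‖ ≤ 0.0128) (θ : ℝ) :
    circleMap a 0.3 θ ∈ ball (0 : ℂ) (√3 / 4) := by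
  rw [mem_ball_zero_iff]
  have h1 : ‖circleMap a 0.3 θ‖ ≤ ‖a‖ + 0.3 := by
    unfold circleMap
    refine (norm_add_le _ _).trans ?_
    have h03 : ‖((0.3 : ℝ) : ℂ)‖ = 0.3 := by rw [Complex.norm_real]; norm_num
    rw [norm_mul, Complex.norm_exp_ofReal_mul_I, h03, mul_one]
  have := sqrt3_gt
  linarith

lemma VV_cont {F f : ℂ → ℂ} (hG : Good F) (hI : Inv F f) (A : ℝ) {a : ℂ} (ha : ‖a‖ ≤ 0.0128) :
    Continuous (VV F f A a) := by
  unfold VV
  refine continuous_const.add ?_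
  have h1 : ContinuousOn (fun v => P F (f v)) (ball 0 (√3 / 4)) := contP hG hI
  exact h1.comp_continuous (continuous_circleMap a 0.3) (circle_mem ha)

lemma VV_per {F f : ℂ → ℂ} (A : ℝ) (a : ℂ) (θ : ℝ) :
    VV F f A a (θ + 2 * Real.pi) = VV F f A a θ := by
  unfold VV
  rw [periodic_circleMap a 0.3 θ]

lemma norm_f_lt {F f : ℂ → ℂ} (hI : Inv F f) {a : ℂ} (ha : ‖a‖ ≤ 0.0128) (θ : ℝ) :
    ‖f (circleMap a 0.3 θ)‖ < 1 / √3 := hI.lt _ (circle_mem ha θ)

lemma log_nonneg' {F : ℂ → ℂ} {A : ℝ} {E : Set ℂ} (hG : Good F) (hA : 0 < A) (hC : Cov F A E) :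
    0 ≤ Real.log (2 / A) := by
  apply Real.log_nonneg
  rw [le_div_iff₀ hA]
  have := Spec.A_le_two hG hA hC
  linarith

lemma VV_nonneg {F f : ℂ → ℂ} {A : ℝ} {E : Set ℂ} (hG : Good F) (hI : Inv F f) (hA : 0 < A)
    (hC : Cov F A E) {a : ℂ} (ha : ‖a‖ ≤ 0.0128) (θ : ℝ) : 0 ≤ VV F f A a θ :=
  add_nonneg (log_nonneg' hG hA hC) (Spec.P_nonneg hG (norm_f_lt hI ha θ))

lemma deriv_ne {F f : ℂ → ℂ} (hG : Good F) (hI : Inv F f) {v : ℂ}
    (hv : v ∈ ball (0 : ℂ) (√3 / 4)) : deriv F (f v) ≠ 0 := by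
  intro h
  have := Spec.deriv_mul hG hI hv
  rw [h, zero_mul] at this
  exact zero_ne_one this

/-- lower bound of `VV` by `psiS` of the squared distance. -/
lemma VV_lower {F f : ℂ → ℂ} {A : ℝ} {E : Set ℂ} (hG : Good F) (hI : Inv F f) (hA : 0 < A)
    (hC : Cov F A E) {a : ℂ} (ha : ‖a‖ ≤ 0.0128) {p : ℂ} (hp : p ∈ E) (θ : ℝ) :
    0 < ‖(A : ℂ) * circleMap a 0.3 θ - p‖ ^ 2 ∧
    psiS (‖(A : ℂ) * circleMap a 0.3 θ - p‖ ^ 2) ≤ VV F f A a θ := by
  have hv := circle_mem ha θ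
  have h1 := Spec.lower hG hA hC (f_ball hI hv) (deriv_ne hG hI hv) hp
  rw [hI.eq _ hv] at h1
  refine ⟨?_, h1⟩
  have h2 := hC.dis _ (f_ball hI hv)
  rw [hI.eq _ hv] at h2
  have h3 : (A : ℂ) * circleMap a 0.3 θ - p ≠ 0 := by
    intro h
    rw [sub_eq_zero] at h
    exact h2 (h ▸ hp)
  positivity

lemma sq_dist_circle (A R ρ b θ : ℝ) (hR : R = 0.3 * A) :
    ‖(A : ℂ) * circleMap 0 0.3 θ - ρ * Complex.exp (b * I)‖ ^ 2 =
      R ^ 2 + ρ ^ 2 - 2 * R * ρ * Real.cos (θ - b) := by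
  have h1 : (A : ℂ) * circleMap 0 0.3 θ = R * Complex.exp (θ * I) := by
    unfold circleMap
    rw [hR]; push_cast; ring
  rw [h1, ← Complex.normSq_eq_norm_sq, Complex.normSq_apply]
  have e1 : ((R : ℂ) * Complex.exp (θ * I) - ρ * Complex.exp (b * I)).re =
      R * Real.cos θ - ρ * Real.cos b := by
    simp [Complex.exp_ofReal_mul_I_re]
  have e2 : ((R : ℂ) * Complex.exp (θ * I) - ρ * Complex.exp (b * I)).im =
      R * Real.sin θ - ρ * Real.sin b := by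
    simp [Complex.exp_ofReal_mul_I_im]
  rw [e1, e2, Real.cos_sub]
  nlinarith [Real.sin_sq_add_cos_sq θ, Real.sin_sq_add_cos_sq b]

/-- polar form of a point with given (small) imaginary part. -/
lemma polar {p : ℂ} (h : 0 < p.re) : p = ‖p‖ * Complex.exp (Real.arcsin (p.im / ‖p‖) * I) ∧
    ‖p‖ * Real.sin (Real.arcsin (p.im / ‖p‖)) = p.im := by
  have hp : 0 < ‖p‖ := by
    rw [norm_pos_iff]; intro h0; rw [h0] at h; simp at h
  have h1 : |p.im / ‖p‖| ≤ 1 := by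
    rw [abs_div, abs_of_pos hp, div_le_one hp]; exact Complex.abs_im_le_norm p
  have hs : Real.sin (Real.arcsin (p.im / ‖p‖)) = p.im / ‖p‖ :=
    Real.sin_arcsin (by linarith [neg_abs_le (p.im / ‖p‖)]) (by linarith [le_abs_self (p.im / ‖p‖)])
  have hc : Real.cos (Real.arcsin (p.im / ‖p‖)) = p.re / ‖p‖ := by
    rw [Real.cos_arcsin]
    have : 1 - (p.im / ‖p‖) ^ 2 = (p.re / ‖p‖) ^ 2 := by
      have h2 : p.re ^ 2 + p.im ^ 2 = ‖p‖ ^ 2 := by
        rw [← Complex.normSq_eq_norm_sq, Complex.normSq_apply]; ring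
      field_simp
      linarith
    rw [this, Real.sqrt_sq (by positivity)]
  constructor
  · apply Complex.ext
    · simp only [Complex.re_ofReal_mul, Complex.exp_ofReal_mul_I_re, hc]
      field_simp
    · simp only [Complex.im_ofReal_mul, Complex.exp_ofReal_mul_I_im, hs]
      field_simp
  · rw [hs]; field_simp

/-- one point on the right side of the imaginary axis. -/
lemma point_bound {F f : ℂ → ℂ} {A : ℝ} {E : Set ℂ} (hG : Good F) (hI : Inv F f) (hA : 0 < A)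
    (hC : Cov F A E) (hc : Real.log (2 / A) ≤ 0.0005) {p : ℂ} (hp : p ∈ E) {b : ℝ}
    (hpb : p = ‖p‖ * Complex.exp (b * I)) (hp1 : ‖p‖ ≤ 1.01) (him : |p.im| ≤ 0.16) :
    2 * Real.pi * (0.0735 - 0.34 * (‖p‖ - 1) - 0.06 * p.im ^ 2) ≤
      ∫ θ in (b - 1.1)..(b + 1.1), (1 + Real.cos (2 * θ)) * VV F f A 0 θ := by
  have h1 := A_ge hA hc
  have h2 := Spec.A_le_two hG hA hC
  have h3 : 0.9962 ≤ ‖p‖ := by
    have := Spec.delta0 hG hA hC hc
    refine this.trans ?_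
    have := infDist_le_dist_of_mem (x := (0 : ℂ)) hp
    rwa [dist_zero_left] at this
  have h4 : p.im = ‖p‖ * Real.sin b := by
    conv_lhs => rw [hpb]
    rw [Complex.im_ofReal_mul, Complex.exp_ofReal_mul_I_im]
  rw [h4] at him ⊢
  refine Spec.numA1 (R := 0.3 * A) (by linarith) (by linarith) h3 hp1 him
    (VV_cont hG hI A (by norm_num)) ?_
  intro θ _ x hx
  obtain ⟨h5, h6⟩ := VV_lower hG hI hA hC (a := 0) (by norm_num) hp θ
  refine (Spec.aff_le_psiS hx ?_).trans (le_trans (le_of_eq ?_) h6)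
  · rw [← sq_dist_circle A (0.3 * A) ‖p‖ b θ rfl, ← hpb]; exact h5
  · rw [← sq_dist_circle A (0.3 * A) ‖p‖ b θ rfl, ← hpb]

lemma mean_VV {F f : ℂ → ℂ} {A : ℝ} (hG : Good F) (hI : Inv F f)
    (hc : Real.log (2 / A) ≤ 0.0005) :
    ∫ θ in (0 : ℝ)..(2 * Real.pi), (1 + Real.cos (2 * θ)) * VV F f A 0 θ ≤
      2 * Real.pi * 0.1438 := by
  have h0 := Spec.mean0 hG hI
  unfold Real.circleAverage at h0
  have hpi := Real.pi_pos
  have hcont : Continuous (fun θ : ℝ => P F (f (circleMap 0 0.3 θ))) := by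
    have h1 : ContinuousOn (fun v => P F (f v)) (ball 0 (√3 / 4)) := contP hG hI
    exact h1.comp_continuous (continuous_circleMap 0 0.3) (circle_mem (by norm_num))
  have e1 : ∫ θ in (0 : ℝ)..(2 * Real.pi),
      (1 + ((circleMap 0 0.3 θ) ^ 2).re / 0.09) * P F (f (circleMap 0 0.3 θ)) =
      ∫ θ in (0 : ℝ)..(2 * Real.pi), (1 + Real.cos (2 * θ)) * P F (f (circleMap 0 0.3 θ)) := by
    refine intervalIntegral.integral_congr ?_
    intro θ _
    simp only
    congr 2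
    have : (circleMap 0 0.3 θ) ^ 2 = ((0.09 : ℝ) : ℂ) * Complex.exp ((2 * θ : ℝ) * I) := by
      unfold circleMap
      rw [zero_add, mul_pow, ← Complex.exp_nat_mul]
      push_cast
      congr 1
      · norm_num
      · congr 1; ring
    rw [this, Complex.re_ofReal_mul, Complex.exp_ofReal_mul_I_re]
    norm_num
  rw [e1, smul_eq_mul, inv_mul_le_iff₀ (by positivity)] at h0
  have e2 : ∫ θ in (0 : ℝ)..(2 * Real.pi), (1 + Real.cos (2 * θ)) * VV F f A 0 θ =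
      Real.log (2 / A) * (∫ θ in (0 : ℝ)..(2 * Real.pi), (1 + Real.cos (2 * θ))) +
      ∫ θ in (0 : ℝ)..(2 * Real.pi), (1 + Real.cos (2 * θ)) * P F (f (circleMap 0 0.3 θ)) := by
    rw [← intervalIntegral.integral_const_mul, ← intervalIntegral.integral_add]
    · refine intervalIntegral.integral_congr ?_
      intro θ _
      simp only [VV]; ring
    · exact (by fun_prop : Continuous fun θ : ℝ => Real.log (2 / A) * (1 + Real.cos (2 * θ))).intervalIntegrable _ _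
    · exact ((by fun_prop : Continuous fun θ : ℝ => (1 + Real.cos (2 * θ))).mul hcont).intervalIntegrable _ _
  have e3 : ∫ θ in (0 : ℝ)..(2 * Real.pi), (1 + Real.cos (2 * θ)) = 2 * Real.pi := by
    rw [intervalIntegral.integral_add (by simp) (by
      exact (by fun_prop : Continuous fun θ : ℝ => Real.cos (2 * θ)).intervalIntegrable _ _)]
    rw [intervalIntegral.integral_comp_mul_left (fun x => Real.cos x) (by norm_num : (2 : ℝ) ≠ 0)]
    rw [integral_cos]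
    have : Real.sin (2 * (2 * Real.pi)) = 0 := by
      have := Real.sin_nat_mul_pi 4
      push_cast at this
      rw [← this]; congr 1; ring
    simp [this]
  rw [e2, e3]
  nlinarith

/-- case A after rotation. -/
theorem caseA_aux {F f : ℂ → ℂ} {A : ℝ} {E : Set ℂ} (hG : Good F) (hI : Inv F f) (hA : 0 < A)
    (hC : Cov F A E) (hc : Real.log (2 / A) ≤ 0.0005) {p q : ℂ} (hp : p ∈ E) (hq : q ∈ E)
    (him : p.im = q.im) (hpr : 0 < p.re) (hqr : q.re < 0)
    (h : (|p.im| ≤ 0.15 ∧ ‖p‖ + ‖q‖ ≤ 2.00065) ∨ (|p.im| ≤ 0.1054 ∧ ‖p‖ + ‖q‖ ≤ 2.0048)) :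
    False := by
  have hpi := Real.pi_gt_d2
  have hd := Spec.delta0 hG hA hC hc
  have hp1 : 0.9962 ≤ ‖p‖ := by
    refine hd.trans ?_
    have := infDist_le_dist_of_mem (x := (0 : ℂ)) hp
    rwa [dist_zero_left] at this
  have hq1 : 0.9962 ≤ ‖q‖ := by
    refine hd.trans ?_
    have := infDist_le_dist_of_mem (x := (0 : ℂ)) hq
    rwa [dist_zero_left] at this
  have himp : |p.im| ≤ 0.16 := by rcases h with h | h <;> linarith [h.1]
  have himq : |q.im| ≤ 0.16 := him ▸ himp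
  have hp2 : ‖p‖ ≤ 1.01 := by rcases h with h | h <;> linarith [h.2]
  have hq2 : ‖q‖ ≤ 1.01 := by rcases h with h | h <;> linarith [h.2]
  set bp : ℝ := Real.arcsin (p.im / ‖p‖) with hbp
  have hP := polar hpr
  -- the point q
  have hq' : 0 < (-(starRingEnd ℂ q)).re := by simp [hqr]
  have hQ := polar hq'
  have hnq : ‖-(starRingEnd ℂ q)‖ = ‖q‖ := by rw [norm_neg, RCLike.norm_conj]
  have hiq : (-(starRingEnd ℂ q)).im = q.im := by simp
  rw [hnq, hiq] at hQ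
  set cq : ℝ := Real.arcsin (q.im / ‖q‖) with hcq
  have hqb : q = ‖q‖ * Complex.exp ((Real.pi - cq : ℝ) * I) := by
    have h1 : q = -(starRingEnd ℂ (-(starRingEnd ℂ q))) := by simp
    rw [hQ.1] at h1
    rw [map_mul, Complex.conj_ofReal, ← Complex.exp_conj, map_mul, Complex.conj_I,
      Complex.conj_ofReal] at h1
    conv_lhs => rw [h1]
    push_cast
    rw [sub_mul, Complex.exp_sub, Complex.exp_pi_mul_I, mul_neg, Complex.exp_neg]
    field_simp
  have B1 := point_bound hG hI hA hC hc hp hP.1 hp2 himp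
  have B2 := point_bound hG hI hA hC hc hq hqb hq2 himq
  -- angles are small
  have small : ∀ (y r : ℝ), |y| ≤ 0.16 → 0.9962 ≤ r → |Real.arcsin (y / r)| ≤ 0.17 := by
    intro y r hy hr
    have hr0 : 0 < r := by linarith
    have h1 : |y / r| ≤ 0.161 := by
      rw [abs_div, abs_of_pos hr0, div_le_iff₀ hr0]; nlinarith
    have h2 : (0.161 : ℝ) ≤ Real.sin 0.17 := by
      have := Real.sin_gt_sub_cube (x := 0.17) (by norm_num)
      norm_num at this ⊢
      linarith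
    rw [abs_le] at h1 ⊢
    constructor
    · rw [Real.le_arcsin_iff_sin_le' ⟨by linarith, by linarith⟩, Real.sin_neg]
      linarith
    · rw [Real.arcsin_le_iff_le_sin' ⟨by linarith, by linarith⟩]
      linarith
  have s1 := small p.im ‖p‖ himp hp1
  have s2 := small q.im ‖q‖ himq hq1
  rw [← hbp] at s1
  rw [← hcq] at s2
  rw [abs_le] at s1 s2
  -- integrals
  have hper : Function.Periodic (fun θ => (1 + Real.cos (2 * θ)) * VV F f A 0 θ)
      (2 * Real.pi) := by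
    intro θ
    simp only
    rw [VV_per]
    have h1 := Real.cos_add_nat_mul_two_pi (2 * θ) 2
    have h2 : 2 * (θ + 2 * Real.pi) = 2 * θ + (2 : ℕ) * (2 * Real.pi) := by push_cast; ring
    rw [h2, h1]
  have hcont : Continuous (fun θ => (1 + Real.cos (2 * θ)) * VV F f A 0 θ) :=
    (by fun_prop : Continuous fun θ : ℝ => (1 + Real.cos (2 * θ))).mul (VV_cont hG hI A (by norm_num))
  have hnn : ∀ θ, 0 ≤ (1 + Real.cos (2 * θ)) * VV F f A 0 θ := fun θ =>
    mul_nonneg (by linarith [Real.neg_one_le_cos (2 * θ)]) (VV_nonneg hG hI hA hC (by norm_num) θ)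
  have M := mean_VV (A := A) hG hI hc
  have e1 : ∫ θ in (0 : ℝ)..(2 * Real.pi), (1 + Real.cos (2 * θ)) * VV F f A 0 θ =
      ∫ θ in (-1.3 : ℝ)..(-1.3 + 2 * Real.pi), (1 + Real.cos (2 * θ)) * VV F f A 0 θ := by
    have := hper.intervalIntegral_add_eq 0 (-1.3)
    simpa using this
  have ii : ∀ a b : ℝ, IntervalIntegrable (fun θ => (1 + Real.cos (2 * θ)) * VV F f A 0 θ)
      volume a b := fun a b => hcont.intervalIntegrable a b
  have e2 : (∫ θ in (bp - 1.1)..(bp + 1.1), (1 + Real.cos (2 * θ)) * VV F f A 0 θ) +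
      (∫ θ in (Real.pi - cq - 1.1)..(Real.pi - cq + 1.1), (1 + Real.cos (2 * θ)) * VV F f A 0 θ)
      ≤ ∫ θ in (-1.3 : ℝ)..(-1.3 + 2 * Real.pi), (1 + Real.cos (2 * θ)) * VV F f A 0 θ := by
    have n1 : 0 ≤ ∫ θ in (-1.3 : ℝ)..(bp - 1.1), (1 + Real.cos (2 * θ)) * VV F f A 0 θ :=
      intervalIntegral.integral_nonneg (by linarith) (fun θ _ => hnn θ)
    have n2 : 0 ≤ ∫ θ in (bp + 1.1)..(Real.pi - cq - 1.1), (1 + Real.cos (2 * θ)) * VV F f A 0 θ :=
      intervalIntegral.integral_nonneg (by linarith) (fun θ _ => hnn θ)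
    have n3 : 0 ≤ ∫ θ in (Real.pi - cq + 1.1)..(-1.3 + 2 * Real.pi),
        (1 + Real.cos (2 * θ)) * VV F f A 0 θ :=
      intervalIntegral.integral_nonneg (by linarith) (fun θ _ => hnn θ)
    have a1 := intervalIntegral.integral_add_adjacent_intervals (ii (-1.3) (bp - 1.1))
      (ii (bp - 1.1) (bp + 1.1))
    have a2 := intervalIntegral.integral_add_adjacent_intervals (ii (-1.3) (bp + 1.1))
      (ii (bp + 1.1) (Real.pi - cq - 1.1))
    have a3 := intervalIntegral.integral_add_adjacent_intervals (ii (-1.3) (Real.pi - cq - 1.1))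
      (ii (Real.pi - cq - 1.1) (Real.pi - cq + 1.1))
    have a4 := intervalIntegral.integral_add_adjacent_intervals (ii (-1.3) (Real.pi - cq + 1.1))
      (ii (Real.pi - cq + 1.1) (-1.3 + 2 * Real.pi))
    linarith
  have hfin : 2 * Real.pi * (0.0735 - 0.34 * (‖p‖ - 1) - 0.06 * p.im ^ 2) +
      2 * Real.pi * (0.0735 - 0.34 * (‖q‖ - 1) - 0.06 * q.im ^ 2) ≤ 2 * Real.pi * 0.1438 := by
    linarith
  have hfin2 : (0.0735 - 0.34 * (‖p‖ - 1) - 0.06 * p.im ^ 2) +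
      (0.0735 - 0.34 * (‖q‖ - 1) - 0.06 * q.im ^ 2) ≤ 0.1438 := by
    have h2 : 0 < 2 * Real.pi := by linarith
    have := hfin
    rw [← mul_add] at this
    exact le_of_mul_le_mul_left this h2
  rw [← him] at hfin2
  rcases h with ⟨h1, h2⟩ | ⟨h1, h2⟩
  · have : p.im ^ 2 ≤ 0.15 ^ 2 := by rw [← sq_abs]; gcongr
    nlinarith
  · have : p.im ^ 2 ≤ 0.1054 ^ 2 := by rw [← sq_abs]; gcongr
    nlinarith

/-- case A. -/
theorem caseA {F : ℂ → ℂ} {A : ℝ} {E : Set ℂ} (hG : Good F) (hA : 0 < A)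
    (hC : Cov F A E) (hc : Real.log (2 / A) ≤ 0.0005) {p q ξ : ℂ} (hp : p ∈ E) (hq : q ∈ E)
    (hξ : ‖ξ‖ = 1) (him : (p * ξ).im = (q * ξ).im) (hpr : 0 < (p * ξ).re)
    (hqr : (q * ξ).re < 0)
    (h : (|(p * ξ).im| ≤ 0.15 ∧ ‖p‖ + ‖q‖ ≤ 2.00065) ∨
      (|(p * ξ).im| ≤ 0.1054 ∧ ‖p‖ + ‖q‖ ≤ 2.0048)) :
    False := by
  have hξ0 : ξ ≠ 0 := by intro h; rw [h] at hξ; simp at hξ
  obtain ⟨f, hI⟩ := Spec.exists_inv (hG.rot hξ)
  have e : ∀ w : ℂ, ξ⁻¹ * (w * ξ) = w := fun w => by field_simp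
  refine caseA_aux (p := p * ξ) (q := q * ξ) (hG.rot hξ) hI hA (hC.rot hξ) hc ?_ ?_ him hpr hqr ?_
  · show ξ⁻¹ * (p * ξ) ∈ E
    rw [e]; exact hp
  · show ξ⁻¹ * (q * ξ) ∈ E
    rw [e]; exact hq
  · rw [norm_mul, norm_mul, hξ, mul_one, mul_one]; exact h

end Pool.Agent.Helper91.LC
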