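import Pool.Agent.Helper91.LC.CaseA

/-!
# Project LC: case B and the main statement
-/

namespace Pool.Agent.Helper91.LC

open Complex Metric Set MeasureTheory

/-- case B. -/
theorem caseB {F : ℂ → ℂ} {A : ℝ} {E : Set ℂ} (hG : Good F) (hA : 0 < A)
    (hC : Cov F A E) (hc : Real.log (2 / A) ≤ 0.0005) {a : ℂ} {d : ℝ} (ha : ‖a‖ ≤ 0.0254)
    (hd : 0.99 ≤ d) (hd1 : d ≤ 1)
    (hcov : ∀ x : ℝ, ∃ t : ℝ, |t - x| ≤ Real.arccos 0.08 ∧ a + d * Complex.exp (t * I) ∈ E) :
    False := by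
  obtain ⟨f, hI⟩ := Spec.exists_inv hG
  have hA1 := A_ge hA hc
  have hA2 := Spec.A_le_two hG hA hC
  have hpi := Real.pi_gt_d2
  have hpi' := Real.pi_lt_d2
  set R : ℝ := 0.3 * A with hR
  set ℓ : ℝ := 2 * Real.arccos 0.08 with hℓ
  have hA0 : (A : ℂ) ≠ 0 := by exact_mod_cast hA.ne'
  set a' : ℂ := a / A with ha'
  have hna : ‖a'‖ ≤ 0.0128 := by
    rw [ha', norm_div, Complex.norm_real, Real.norm_eq_abs, abs_of_pos hA, div_le_iff₀ hA]
    nlinarith
  -- bounds for arccos
  have hac : Real.arccos 0.08 = Real.pi / 2 - Real.arcsin 0.08 := Real.arccos_eq_pi_div_two_sub_arcsin _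
  have has0 : 0 < Real.arcsin 0.08 := Real.arcsin_pos.mpr (by norm_num)
  have has1 : Real.arcsin 0.08 ≤ 0.1 := by
    rw [Real.arcsin_le_iff_le_sin' ⟨by linarith, by linarith⟩]
    have := Real.sin_gt_sub_cube (x := 0.1) (by norm_num)
    norm_num at this ⊢
    linarith
  set S : Set ℝ := {t | a + d * Complex.exp (t * I) ∈ E} with hS
  have hcont : Continuous (VV F f A a') := VV_cont hG hI A hna
  have hs_pos : ∀ t : ℝ, 0 < R ^ 2 + 1 - 2 * R * Real.cos t := by
    intro t
    have h1 := Real.cos_le_one t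
    have h2 : 0 < R := by rw [hR]; linarith
    have h3 : R ≤ 0.6 := by rw [hR]; linarith
    nlinarith
  have hchain := Spec.chain (S := S) (ℓ := ℓ) (Ψ := fun t => psiS (R ^ 2 + 1 - 2 * R * Real.cos t))
    (V := VV F f A a') ?_ ?_ ?_ ?_ ?_ ?_ (fun t => Spec.psiS_nonneg _ (hs_pos t)) hcont
    (VV_per A a') ?_
  · have hnum := Spec.numB (R := R) (ℓ := ℓ) (by rw [hR]; linarith) (by rw [hR]; linarith) hℓ
    have hm := Spec.mean1 hG hI hna
    unfold Real.circleAverage at hm
    rw [smul_eq_mul, inv_mul_le_iff₀ (by positivity)] at hm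
    have e2 : ∫ θ in (0 : ℝ)..(2 * Real.pi), VV F f A a' θ =
        2 * Real.pi * Real.log (2 / A) +
        ∫ θ in (0 : ℝ)..(2 * Real.pi), P F (f (circleMap a' 0.3 θ)) := by
      unfold VV
      rw [intervalIntegral.integral_add (by simp)]
      · simp
      · have h1 : ContinuousOn (fun v => P F (f v)) (ball 0 (√3 / 4)) := contP hG hI
        exact (h1.comp_continuous (continuous_circleMap a' 0.3) (circle_mem hna)).intervalIntegrable _ _
    rw [e2] at hchain
    nlinarith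
  · exact hC.clo.preimage (by fun_prop)
  · intro t
    simp only [hS, mem_setOf_eq]
    have : Complex.exp (((t + 2 * Real.pi : ℝ) : ℂ) * I) = Complex.exp (t * I) := by
      push_cast
      rw [add_mul, Complex.exp_add, Complex.exp_two_pi_mul_I, mul_one]
    rw [this]
  · rw [hℓ, hac]; linarith
  · rw [hℓ, hac]; linarith
  · intro x
    obtain ⟨t, h1, h2⟩ := hcov x
    exact ⟨t, h2, by rw [hℓ]; linarith⟩
  · intro s hs t ht hst
    simp only [mem_Icc] at hs ht
    refine Spec.psiS_anti (hs_pos s) ?_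
    have h1 : Real.cos t ≤ Real.cos s := by
      apply Real.cos_le_cos_of_nonneg_of_le_pi hs.1 _ hst
      rw [hℓ, hac] at ht; linarith
    have h2 : 0 < R := by rw [hR]; linarith
    nlinarith
  · intro θ t ht _
    simp only [hS, mem_setOf_eq] at ht
    obtain ⟨h5, h6⟩ := VV_lower hG hI hA hC hna ht θ
    refine le_trans (Spec.psiS_anti h5 ?_) h6
    have e3 : (A : ℂ) * circleMap a' 0.3 θ - (a + d * Complex.exp (t * I)) =
        (A : ℂ) * circleMap 0 0.3 θ - d * Complex.exp (t * I) := by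
      unfold circleMap
      rw [ha']
      field_simp
      ring
    rw [e3, sq_dist_circle A R d t θ rfl, Real.cos_abs]
    have h1 := Real.cos_le_one (θ - t)
    have h2 : 0 < R := by rw [hR]; linarith
    have h3 : R ≤ 0.6 := by rw [hR]; linarith
    nlinarith [mul_nonneg (sub_nonneg.mpr hd1) (sub_nonneg.mpr h1), mul_nonneg h2.le (mul_nonneg (sub_nonneg.mpr hd1) (sub_nonneg.mpr h1))]

/-- the normalised main statement. -/
theorem main_aux (F : ℂ → ℂ) (A : ℝ) (E : Set ℂ) (hG : Good F) (hA : 0 < A) (hC : Cov F A E)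
    (hc : Real.log (2 / A) ≤ 0.0005) : False := by
  rcases Spec.geo hC.clo hC.ne hC.cov (Spec.delta0 hG hA hC hc) with
    ⟨p, hp, q, hq, ξ, h1, h2, h3, h4, h5⟩ | ⟨a, d, h1, h2, h3, h4⟩
  · exact caseA hG hA hC hc hp hq h1 h2 h3 h4 h5
  · exact caseB hG hA hC hc h1 h2 h3 h4

/-- every normalised holomorphic function covers a disc of radius `1/2 + 1/4000`. -/
theorem landau {f : ℂ → ℂ} (hf : DifferentiableOn ℂ f (ball 0 1)) (h1 : deriv f 0 = 1) :
    ∃ w : ℂ, ball w (2001 / 4000) ⊆ f '' ball 0 1 :=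
  Spec.reduction main_aux hf h1

end Pool.Agent.Helper91.LC
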