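import Pool.Agent.Helper91.LC.R.Ahlfors
import Pool.Agent.Helper91.LC.R.Lower
import Pool.Agent.Helper91.LC.R.Bonk
import Pool.Agent.Helper91.LC.R.Growth
import Pool.Agent.Helper91.LC.R.ExistsInv
import Pool.Agent.Helper91.LC.R.FLe
import Pool.Agent.Helper91.LC.R.First
import Pool.Agent.Helper91.LC.R.Coeffs
import Pool.Agent.Helper91.LC.R.Eta
import Pool.Agent.Helper91.LC.R.ExistsLog
import Pool.Agent.Helper91.LC.R.MeanW
import Pool.Agent.Helper91.LC.R.MeanWEta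
import Pool.Agent.Helper91.LC.R.Mean0
import Pool.Agent.Helper91.LC.R.Mean1
import Pool.Agent.Helper91.LC.R.Delta0
import Pool.Agent.Helper91.LC.R.Geo
import Pool.Agent.Helper91.LC.R.Chain
import Pool.Agent.Helper91.LC.R.NumA
import Pool.Agent.Helper91.LC.R.NumB
import Pool.Agent.Helper91.LC.R.Reduction

/-!
# Project LC: rotation of the configuration, continuity of the potential
-/

namespace Pool.Agent.Helper91.LC

open Complex Metric Set

/-- rotated function -/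
noncomputable def rotF (F : ℂ → ℂ) (ξ : ℂ) : ℂ → ℂ := fun z => ξ * F (ξ⁻¹ * z)

lemma rot_ball {ξ : ℂ} (hξ : ‖ξ‖ = 1) {z : ℂ} {r : ℝ} (hz : z ∈ ball (0 : ℂ) r) :
    ξ⁻¹ * z ∈ ball (0 : ℂ) r := by
  rw [mem_ball_zero_iff] at hz ⊢
  rw [norm_mul, norm_inv, hξ]; simpa using hz

lemma rot_deriv {F : ℂ → ℂ} (hF : DifferentiableOn ℂ F (ball 0 1)) {ξ : ℂ} (hξ : ‖ξ‖ = 1)
    {z : ℂ} (hz : z ∈ ball (0 : ℂ) 1) : HasDerivAt (rotF F ξ) (deriv F (ξ⁻¹ * z)) z := by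
  have hξ0 : ξ ≠ 0 := by intro h; rw [h] at hξ; simp at hξ
  have h1 : HasDerivAt F (deriv F (ξ⁻¹ * z)) (ξ⁻¹ * z) :=
    (hF.differentiableAt (isOpen_ball.mem_nhds (rot_ball hξ hz))).hasDerivAt
  have h2 : HasDerivAt (fun z : ℂ => ξ⁻¹ * z) ξ⁻¹ z := by
    simpa using (hasDerivAt_id z).const_mul ξ⁻¹
  have h3 := (h1.comp z h2).const_mul ξ
  have : ξ * (deriv F (ξ⁻¹ * z) * ξ⁻¹) = deriv F (ξ⁻¹ * z) := by field_simp
  rw [this] at h3
  exact h3

lemma Good.rot {F : ℂ → ℂ} (hG : Good F) {ξ : ℂ} (hξ : ‖ξ‖ = 1) : Good (rotF F ξ) := by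
  refine ⟨fun z hz => (rot_deriv hG.diff hξ hz).differentiableAt.differentiableWithinAt, ?_, ?_, ?_⟩
  · simp [rotF, hG.zero]
  · rw [(rot_deriv hG.diff hξ (by simp)).deriv]; simp [hG.one]
  · intro z hz
    rw [(rot_deriv hG.diff hξ hz).deriv]
    have := hG.bd _ (rot_ball hξ hz)
    rwa [norm_mul, norm_inv, hξ, inv_one, one_mul] at this

lemma Cov.rot {F : ℂ → ℂ} {A : ℝ} {E : Set ℂ} (hC : Cov F A E) {ξ : ℂ} (hξ : ‖ξ‖ = 1) :
    Cov (rotF F ξ) A {w | ξ⁻¹ * w ∈ E} := by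
  have hξ0 : ξ ≠ 0 := by intro h; rw [h] at hξ; simp at hξ
  refine ⟨hC.clo.preimage (by fun_prop), ?_, ?_, ?_⟩
  · obtain ⟨e, he⟩ := hC.ne
    exact ⟨ξ * e, by simp [hξ0, he]⟩
  · intro w
    have h1 := hC.cov (ξ⁻¹ * w)
    obtain ⟨e, he, hd⟩ := hC.clo.exists_infDist_eq_dist hC.ne (ξ⁻¹ * w)
    have : infDist w {w | ξ⁻¹ * w ∈ E} ≤ dist w (ξ * e) :=
      infDist_le_dist_of_mem (by simp [hξ0, he])
    refine this.trans ?_
    have h2 : dist w (ξ * e) = dist (ξ⁻¹ * w) e := by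
      rw [dist_eq_norm, dist_eq_norm]
      have : w - ξ * e = ξ * (ξ⁻¹ * w - e) := by field_simp
      rw [this, norm_mul, hξ, one_mul]
    rw [h2, ← hd]; exact h1
  · intro z hz
    simp only [rotF, mem_setOf_eq]
    have := hC.dis _ (rot_ball hξ hz)
    have h3 : ξ⁻¹ * ((A : ℂ) * (ξ * F (ξ⁻¹ * z))) = (A : ℂ) * F (ξ⁻¹ * z) := by field_simp
    rw [h3]; exact this

lemma sqrt3_gt : (0.43301 : ℝ) < √3 / 4 := by
  have : (1.73204 : ℝ) < √3 := by
    rw [show (1.73204 : ℝ) = √(1.73204 ^ 2) by rw [Real.sqrt_sq (by norm_num)]]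
    exact Real.sqrt_lt_sqrt (by norm_num) (by norm_num)
  linarith

lemma f_ball {F f : ℂ → ℂ} (hI : Inv F f) {v : ℂ} (hv : v ∈ ball (0 : ℂ) (√3 / 4)) :
    f v ∈ ball (0 : ℂ) 1 := by
  rw [mem_ball_zero_iff]
  refine (hI.lt v hv).trans ?_
  rw [div_lt_one (by positivity)]
  rw [show (1 : ℝ) = √1 by simp]
  exact Real.sqrt_lt_sqrt (by norm_num) (by norm_num)

lemma contP {F f : ℂ → ℂ} (hG : Good F) (hI : Inv F f) :
    ContinuousOn (fun v => P F (f v)) (ball 0 (√3 / 4)) := by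
  obtain ⟨h, h1, -, -, -, h5⟩ := Spec.exists_log hG hI
  have : Set.EqOn (fun v => P F (f v)) (fun v => (h v).re - Real.log (1 - ‖f v‖ ^ 2))
      (ball 0 (√3 / 4)) := by
    intro v hv
    simp only
    rw [Spec.P_eq hG hI hv, ← h5 v hv, Complex.norm_exp, Real.log_exp]
  refine ContinuousOn.congr ?_ this
  refine (Complex.continuous_re.comp_continuousOn h1.continuousOn).sub ?_
  refine ContinuousOn.log ?_ ?_
  · exact continuousOn_const.sub ((hI.diff.continuousOn.norm).pow 2)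
  · intro v hv
    have := f_ball hI hv
    rw [mem_ball_zero_iff] at this
    have h2 : ‖f v‖ ^ 2 < 1 := by nlinarith [norm_nonneg (f v)]
    linarith

end Pool.Agent.Helper91.LC
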