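import Pool.Agent.Helper91.LC.Defs

/-!
# Project LC: statements of the pieces (to be proved elsewhere)
-/

namespace Pool.Agent.Helper91.LC

open Complex Metric Set

namespace Spec

/-! ### LC-1: Ahlfors -/

theorem ahlfors {F : ℂ → ℂ} (hF : DifferentiableOn ℂ F (ball 0 1)) {E : Set ℂ}
    (hE : IsClosed E) (hne : E.Nonempty) (hcov : ∀ w, infDist w E ≤ 1)
    (hdis : ∀ z ∈ ball (0 : ℂ) 1, F z ∉ E) {z : ℂ} (hz : z ∈ ball (0 : ℂ) 1) :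
    ‖deriv F z‖ * (1 - ‖z‖ ^ 2) ≤
      2 * infDist (F z) E * (1 - Real.log (infDist (F z) E)) := by
  sorry

/-! ### LC-2: consequences of Ahlfors, real functions `psiS`, `aff` -/

theorem aff_le_psiS {x s : ℝ} (hx : 0 ≤ x) (hs : 0 < s) : aff x s ≤ psiS s := by
  sorry

theorem psiS_nonneg (s : ℝ) (hs : 0 < s) : 0 ≤ psiS s := by
  sorry

theorem psiS_anti {s t : ℝ} (hs : 0 < s) (hst : s ≤ t) : psiS t ≤ psiS s := by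
  sorry

theorem lower {F : ℂ → ℂ} {A : ℝ} {E : Set ℂ} (hG : Good F) (hA : 0 < A) (hC : Cov F A E)
    {z : ℂ} (hz : z ∈ ball (0 : ℂ) 1) (hz' : deriv F z ≠ 0) {p : ℂ} (hp : p ∈ E) :
    psiS (‖(A : ℂ) * F z - p‖ ^ 2) ≤ Real.log (2 / A) + P F z := by
  sorry

theorem A_le_two {F : ℂ → ℂ} {A : ℝ} {E : Set ℂ} (hG : Good F) (hA : 0 < A)
    (hC : Cov F A E) : A ≤ 2 := by
  sorry

/-! ### LC-3: Bonk's distortion theorem -/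

theorem bonk {F : ℂ → ℂ} (hG : Good F) {z : ℂ} (hz : ‖z‖ < 1 / √3) :
    (1 - √3 * ‖z‖) / (1 - ‖z‖ / √3) ^ 3 ≤ (deriv F z).re := by
  sorry

/-! ### LC-4: growth and the local inverse -/

theorem growth {F : ℂ → ℂ} (hG : Good F) {z : ℂ} (hz : ‖z‖ < 1 / √3) :
    ‖z‖ * (1 - 2 * ‖z‖ / √3) / (1 - ‖z‖ / √3) ^ 2 ≤ ‖F z‖ := by
  sorry

theorem exists_inv {F : ℂ → ℂ} (hG : Good F) : ∃ f : ℂ → ℂ, Inv F f := by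
  sorry

/-! ### LC-5: first facts on the inverse -/

theorem f_le {F f : ℂ → ℂ} (hG : Good F) (hI : Inv F f) {x : ℝ} (hx0 : 0 ≤ x) (hx : x < 1 / √3)
    {v : ℂ} (hv : v ∈ ball (0 : ℂ) (√3 / 4))
    (hvx : ‖v‖ ≤ x * (1 - 2 * x / √3) / (1 - x / √3) ^ 2) : ‖f v‖ ≤ x := by
  sorry

theorem f_le_30 {F f : ℂ → ℂ} (hG : Good F) (hI : Inv F f) {v : ℂ} (hv : ‖v‖ ≤ 0.3) :
    ‖f v‖ ≤ 0.3158 := by
  sorry

theorem f_le_313 {F f : ℂ → ℂ} (hG : Good F) (hI : Inv F f) {v : ℂ} (hv : ‖v‖ ≤ 0.3128) :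
    ‖f v‖ ≤ 0.3314 := by
  sorry

theorem f_le_095 {F f : ℂ → ℂ} (hG : Good F) (hI : Inv F f) {v : ℂ} (hv : ‖v‖ ≤ 0.095) :
    ‖f v‖ ≤ 0.09533 := by
  sorry

theorem f_le_025 {F f : ℂ → ℂ} (hG : Good F) (hI : Inv F f) {v : ℂ} (hv : ‖v‖ ≤ 0.025) :
    ‖f v‖ ≤ 0.02502 := by
  sorry

theorem f_le_013 {F f : ℂ → ℂ} (hG : Good F) (hI : Inv F f) {v : ℂ} (hv : ‖v‖ ≤ 0.0128) :
    ‖f v‖ ≤ 0.01281 := by
  sorry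

theorem deriv_mul {F f : ℂ → ℂ} (hG : Good F) (hI : Inv F f) {v : ℂ}
    (hv : v ∈ ball (0 : ℂ) (√3 / 4)) : deriv F (f v) * deriv f v = 1 := by
  sorry

theorem P_eq {F f : ℂ → ℂ} (hG : Good F) (hI : Inv F f) {v : ℂ}
    (hv : v ∈ ball (0 : ℂ) (√3 / 4)) :
    P F (f v) = Real.log ‖deriv f v‖ - Real.log (1 - ‖f v‖ ^ 2) := by
  sorry

theorem P_nonneg {F : ℂ → ℂ} (hG : Good F) {z : ℂ} (hz : ‖z‖ < 1 / √3) : 0 ≤ P F z := by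
  sorry

theorem P_le_095 {F f : ℂ → ℂ} (hG : Good F) (hI : Inv F f) {v : ℂ} (hv : ‖v‖ ≤ 0.095) :
    P F (f v) ≤ 0.01977 := by
  sorry

theorem P_le_013 {F f : ℂ → ℂ} (hG : Good F) (hI : Inv F f) {v : ℂ} (hv : ‖v‖ ≤ 0.0128) :
    P F (f v) ≤ 0.00034 := by
  sorry

/-! ### LC-6: Taylor coefficients of `F` -/

theorem coeffs {F : ℂ → ℂ} (hG : Good F) : ∃ (b3 b4 : ℂ) (M : ℂ → ℂ),
    ‖b3‖ ≤ 1 / 3 ∧ ‖b4‖ ≤ 1.38 ∧ DifferentiableOn ℂ M (ball 0 1) ∧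
    (∀ z : ℂ, ‖z‖ ≤ 1 / 3 → ‖M z‖ ≤ 2.29) ∧
    ∀ z ∈ ball (0 : ℂ) 1, F z = z + b3 * z ^ 3 + b4 * z ^ 4 + z ^ 5 * M z := by
  sorry

/-! ### LC-7: the nonlinearity `f v - v` -/

theorem eta_sq {F f : ℂ → ℂ} (hG : Good F) (hI : Inv F f) :
    Real.circleAverage (fun v => ‖f v - v‖ ^ 2) 0 0.3 ≤ 0.000352 := by
  sorry

theorem eta_le_30 {F f : ℂ → ℂ} (hG : Good F) (hI : Inv F f) {v : ℂ} (hv : ‖v‖ ≤ 0.3) :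
    ‖f v - v‖ ≤ 0.03144 := by
  sorry

theorem eta_le_313 {F f : ℂ → ℂ} (hG : Good F) (hI : Inv F f) {v : ℂ} (hv : ‖v‖ ≤ 0.3128) :
    ‖f v - v‖ ≤ 0.03794 := by
  sorry

theorem eta_le_025 {F f : ℂ → ℂ} (hG : Good F) (hI : Inv F f) {v : ℂ} (hv : ‖v‖ ≤ 0.025) :
    ‖f v - v‖ ≤ 0.0000059 := by
  sorry

/-! ### LC-8: logarithm of `f'`, weighted means of real parts of holomorphic functions -/

theorem exists_log {F f : ℂ → ℂ} (hG : Good F) (hI : Inv F f) : ∃ h : ℂ → ℂ,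
    DifferentiableOn ℂ h (ball 0 (√3 / 4)) ∧ h 0 = 0 ∧ deriv h 0 = 0 ∧
    ‖deriv (deriv h) 0‖ ≤ 2 ∧
    ∀ v ∈ ball (0 : ℂ) (√3 / 4), Complex.exp (h v) = deriv f v := by
  sorry

/-- the weight `1 + cos 2θ` at `v = r e^{iθ}`, `r = 0.3`. -/
theorem mean_W {g : ℂ → ℂ} {ρ : ℝ} (hρ : 0.3 < ρ) (hg : DifferentiableOn ℂ g (ball 0 ρ)) :
    Real.circleAverage (fun v => (1 + (v ^ 2).re / 0.09) * (g v).re) 0 0.3 =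
      (g 0).re + 0.09 / 4 * (deriv (deriv g) 0).re := by
  sorry

/-- first order effect of the nonlinearity. -/
theorem mean_W_eta {F f : ℂ → ℂ} (hG : Good F) (hI : Inv F f) :
    Real.circleAverage
      (fun v => (1 + (v ^ 2).re / 0.09) * (2 * (v * (starRingEnd ℂ) (f v - v)).re)) 0 0.3
      ≤ 0.0027 := by
  sorry

/-! ### LC-9: the weighted mean inequality at the centre `0` -/

theorem mean0 {F f : ℂ → ℂ} (hG : Good F) (hI : Inv F f) :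
    Real.circleAverage (fun v => (1 + (v ^ 2).re / 0.09) * P F (f v)) 0 0.3 ≤ 0.1433 := by
  sorry

/-! ### LC-10: the mean inequality at a nearby centre -/

theorem mean1 {F f : ℂ → ℂ} (hG : Good F) (hI : Inv F f) {a : ℂ} (ha : ‖a‖ ≤ 0.0128) :
    Real.circleAverage (fun v => P F (f v)) a 0.3 ≤ 0.0973 := by
  sorry

/-! ### LC-11: the distance from `0` to `E` -/

theorem delta0 {F : ℂ → ℂ} {A : ℝ} {E : Set ℂ} (hG : Good F) (hA : 0 < A) (hC : Cov F A E)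
    (hc : Real.log (2 / A) ≤ 0.0005) : 0.9962 ≤ infDist 0 E := by
  sorry

/-! ### LC-12: geometry of the omitted set near `0` -/

/-- LC-12a -/
theorem geo_a {E : Set ℂ} (hE : IsClosed E) (hne : E.Nonempty) (hcov : ∀ w, infDist w E ≤ 1)
    (h0 : 0.9962 ≤ infDist 0 E) :
    ∃ (a : ℂ) (d : ℝ), ‖a‖ ≤ 0.0254 ∧ d = infDist a E ∧ 0.9962 ≤ d ∧ d ≤ 1 ∧
      ∀ v : ℂ, ‖v‖ = 1 → ∃ e : ℂ, ‖e‖ = 1 ∧ a + d * e ∈ E ∧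
        -0.15 ≤ (v * (starRingEnd ℂ) e).re ∧
        -0.15 * (v * (starRingEnd ℂ) a).re ≤ ‖a‖ * (v * (starRingEnd ℂ) e).re := by
  sorry

/-- LC-12b (may use `geo_a`) -/
theorem geo {E : Set ℂ} (hE : IsClosed E) (hne : E.Nonempty) (hcov : ∀ w, infDist w E ≤ 1)
    (h0 : 0.9962 ≤ infDist 0 E) :
    (∃ p ∈ E, ∃ q ∈ E, ∃ ξ : ℂ, ‖ξ‖ = 1 ∧ (p * ξ).im = (q * ξ).im ∧
      0 < (p * ξ).re ∧ (q * ξ).re < 0 ∧
      ((|(p * ξ).im| ≤ 0.15 ∧ ‖p‖ + ‖q‖ ≤ 2.00065) ∨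
       (|(p * ξ).im| ≤ 0.1054 ∧ ‖p‖ + ‖q‖ ≤ 2.0048))) ∨
    (∃ (a : ℂ) (d : ℝ), ‖a‖ ≤ 0.0254 ∧ 0.99 ≤ d ∧ d ≤ 1 ∧
      ∀ x : ℝ, ∃ t : ℝ, |t - x| ≤ Real.arccos 0.08 ∧
        a + d * Complex.exp (t * Complex.I) ∈ E) := by
  sorry

/-! ### LC-13: the chain lemma -/

theorem chain {S : Set ℝ} (hS : IsClosed S) (hper : ∀ t, t ∈ S ↔ t + 2 * Real.pi ∈ S)
    {ℓ : ℝ} (hℓ : 2 * Real.pi / 3 < ℓ) (hℓ' : ℓ < Real.pi)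
    (hcov : ∀ x, ∃ t ∈ S, |t - x| ≤ ℓ / 2)
    {Ψ : ℝ → ℝ} (hΨ : AntitoneOn Ψ (Icc 0 (ℓ / 2))) (hΨ0 : ∀ t, 0 ≤ Ψ t)
    {V : ℝ → ℝ} (hV : Continuous V) (hVper : ∀ t, V (t + 2 * Real.pi) = V t)
    (hVΨ : ∀ θ, ∀ t ∈ S, |θ - t| ≤ ℓ / 2 → Ψ |θ - t| ≤ V θ) :
    4 * (∫ t in (0 : ℝ)..(ℓ / 2), Ψ t) + 2 * (∫ t in (0 : ℝ)..(Real.pi - ℓ), Ψ t) ≤
      ∫ θ in (0 : ℝ)..(2 * Real.pi), V θ := by
  sorry

/-! ### LC-14: numerical certificate, case A -/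

/-- one point: `b` is the angle of the point from the axis, `Y = ρ sin b`. -/
theorem numA1 {R ρ b : ℝ} (hR : 0.5997 ≤ R) (hR' : R ≤ 0.6) (hρ : 0.9962 ≤ ρ) (hρ' : ρ ≤ 1.01)
    (hb : |ρ * Real.sin b| ≤ 0.16) {V : ℝ → ℝ} (hV : Continuous V)
    (hVx : ∀ θ, |θ - b| ≤ 1.1 → ∀ x, 0 ≤ x →
      aff x (R ^ 2 + ρ ^ 2 - 2 * R * ρ * Real.cos (θ - b)) ≤ V θ) :
    2 * Real.pi * (0.0735 - 0.34 * (ρ - 1) - 0.06 * (ρ * Real.sin b) ^ 2) ≤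
      ∫ θ in (b - 1.1)..(b + 1.1), (1 + Real.cos (2 * θ)) * V θ := by
  sorry

/-! ### LC-15: numerical certificate, case B -/

theorem numB {R ℓ : ℝ} (hR : 0.5997 ≤ R) (hR' : R ≤ 0.6) (hℓ : ℓ = 2 * Real.arccos 0.08) :
    2 * Real.pi * 0.0980 ≤
      4 * (∫ t in (0 : ℝ)..(ℓ / 2), psiS (R ^ 2 + 1 - 2 * R * Real.cos t)) +
      2 * (∫ t in (0 : ℝ)..(Real.pi - ℓ), psiS (R ^ 2 + 1 - 2 * R * Real.cos t)) := by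
  sorry

/-! ### LC-18: reduction of Landau's problem to the normalised statement -/

theorem reduction
    (hmain : ∀ (F : ℂ → ℂ) (A : ℝ) (E : Set ℂ), Good F → 0 < A → Cov F A E →
      Real.log (2 / A) ≤ 0.0005 → False)
    {f : ℂ → ℂ} (hf : DifferentiableOn ℂ f (ball 0 1)) (h1 : deriv f 0 = 1) :
    ∃ w : ℂ, ball w (2001 / 4000) ⊆ f '' ball 0 1 := by
  sorry

end Spec

end Pool.Agent.Helper91.LC
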